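import Pool.Agent.H29.UDP.TPro
import Pool.Agent.H19.LD.PTB

/-!
Row PO2 of the board udp_modules (MP_47c37b_mp): the correlations are nonnegative.
-/

set_option autoImplicit false

open MeasureTheory SchwartzMap Filter Topology Metric
open scoped ENNReal ContDiff

namespace Pool.Agent.H13.UDP

open Pool.Agent.H43.DPC (V S SD moment trans rot IsMAO Diag)
open Pool.Agent.H80.LD (Dom)
open Pool.Agent.H19.LD (exists_bump avg_close exists_radius)
open Pool.Agent.H29.UDP

/-- Row PO2. -/
theorem pf_PO2 : T_PO2 := by
  intro d μ _ hD n s hs x hx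
  have hcont : ContinuousOn s (Diag d n)ᶜ := hs.smooth.continuousOn
  have key : ∀ ε : ℝ, 0 < ε → -ε ≤ s x := by
    intro ε hε
    obtain ⟨r, hr, hr1, hr2⟩ := exists_radius 0 0 s hcont x hx hε
    choose f hf0 hf1 hfs hfc hft using fun i => exists_bump (x i) hr
    have hdisj : ∀ i j, i ≠ j → Disjoint (tsupport (f i)) (tsupport (f j)) := by
      intro i j hij
      rw [Set.disjoint_left]
      intro z hz1 hz2
      have h1 := hft i hz1
      have h2 := hft j hz2
      rw [mem_closedBall, dist_eq_norm] at h1 h2
      exact (hr2 i j hij z z h1 h2).1 rfl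
    have hmom : moment μ f = ∫ y in (Diag d n)ᶜ, s y * ∏ i, f i (y i) := hs.eq f hfc hdisj
    have hclose := avg_close s hcont x f hf0 hf1 hfs hr1
    rw [← hmom, abs_le] at hclose
    have hpos : 0 ≤ moment μ f := hD.pos n f hf0
    linarith [hclose.2]
  by_contra hcon
  push Not at hcon
  have := key (-(s x) / 2) (by linarith)
  linarith

end Pool.Agent.H13.UDP
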